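import Pool.Agent.H240.IX.Def

/-!
# Intermediate values in an eigenspace
-/

set_option autoImplicit false

open Set Filter Topology MeasureTheory
open scoped Real ContDiff

noncomputable section

namespace Pool.Agent.H551.IX

open Pool.Agent.Y262.QE Pool.Agent.Y264.QR Pool.Agent.H240.NX Pool.Agent.H240.IX

theorem stIv (h1 : StKb) : StIv := by
  intro M _ _ _ _ μ _ H _ _ _ i a b hS f φ E t w w' hw hw' ht1 ht2
  obtain ⟨ksym, kadd, ksmul, -, -, -, -, -⟩ := h1 M μ H i a b hS
  have hF := hS.fm φ
  set K : H → H → ℝ := fun u v => kb μ i f φ u v with hK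
  have Ksym : ∀ u v, K u v = K v u := fun u v => ksym f φ u v
  have Kadd : ∀ u u' v, K (u + u') v = K u v + K u' v := fun u u' v => kadd f φ u u' v
  have Ksmul : ∀ (c : ℝ) u v, K (c • u) v = c * K u v := fun c u v => ksmul f φ c u v
  have Kadd2 : ∀ u v v', K u (v + v') = K u v + K u v' := fun u v v' => by
    rw [Ksym, Kadd, Ksym v, Ksym v']
  have Ksmul2 : ∀ (c : ℝ) u v, K u (c • v) = c * K u v := fun c u v => by
    rw [Ksym, Ksmul, Ksym]
  have ht1' : K w w < t := ht1
  have ht2' : t < K w' w' := ht2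
  -- the quadratic forms on the segment
  have hKx : ∀ p q : ℝ, K (p • w + q • w') (p • w + q • w') =
      p ^ 2 * K w w + 2 * (p * q) * K w w' + q ^ 2 * K w' w' := fun p q => by
    rw [Kadd, Kadd2, Kadd2, Ksmul, Ksmul2, Ksmul, Ksmul2, Ksmul, Ksmul2, Ksmul, Ksmul2, Ksym w' w]
    ring
  have hBx : ∀ p q : ℝ, b φ (p • w + q • w') (p • w + q • w') =
      p ^ 2 + 2 * (p * q) * b φ w w' + q ^ 2 := fun p q => by
    simp only [map_add, map_smul, add_apply, smul_apply,
      smul_eq_mul, hw.one, hw'.one, hF.sb w' w]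
    ring
  -- the intermediate value
  set P : ℝ → ℝ := fun s => ((1 - s) ^ 2 * K w w + 2 * ((1 - s) * s) * K w w' + s ^ 2 * K w' w') -
    t * ((1 - s) ^ 2 + 2 * ((1 - s) * s) * b φ w w' + s ^ 2) with hP
  have hPc : Continuous P := by
    rw [hP]
    fun_prop
  have hP0 : P 0 < 0 := by
    have : P 0 = K w w - t := by
      rw [hP]
      ring
    rw [this]
    linarith
  have hP1 : 0 < P 1 := by
    have : P 1 = K w' w' - t := by
      rw [hP]
      ring
    rw [this]
    linarith
  obtain ⟨s, hs, hPs⟩ := intermediate_value_Icc (zero_le_one) hPc.continuousOn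
    (show (0 : ℝ) ∈ Icc (P 0) (P 1) from ⟨hP0.le, hP1.le⟩)
  have hs0 : 0 < s := lt_of_le_of_ne hs.1 (fun h => by
    rw [← h] at hPs
    linarith)
  set x : H := (1 - s) • w + s • w' with hx
  have hKxs : K x x = t * b φ x x := by
    have e1 := hKx (1 - s) s
    have e2 := hBx (1 - s) s
    have e3 : P s = 0 := hPs
    have e4 : K x x - t * b φ x x = P s := by
      rw [hx, e1, e2]
    linarith
  have hax : ∀ v, a x v = E * b φ x v := fun v => by
    rw [hx]
    simp only [map_add, map_smul, add_apply, smul_apply,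
      smul_eq_mul, hw.eig, hw'.eig]
    ring
  have hN : 0 < b φ x x := by
    rcases (hF.nb x).lt_or_eq with h | h
    · exact h
    · exfalso
      obtain ⟨c, hc, hco⟩ := hF.co
      have e1 := hco x
      rw [hax x, ← h] at e1
      have e2 : ‖x‖ ^ 2 ≤ 0 := by nlinarith
      have e3 : ‖x‖ = 0 := by
        have := sq_nonneg ‖x‖
        exact pow_eq_zero_iff (two_ne_zero) |>.mp (le_antisymm e2 this)
      have e4 : x = 0 := norm_eq_zero.mp e3
      have e5 : (1 - s) • w = (-s) • w' := by
        rw [neg_smul, ← add_eq_zero_iff_eq_neg]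
        exact e4
      have e6 : (1 - s) ^ 2 * K w w = s ^ 2 * K w' w' := by
        have h1 : K ((1 - s) • w) ((1 - s) • w) = (1 - s) ^ 2 * K w w := by
          rw [Ksmul, Ksmul2]
          ring
        have h2 : K ((-s) • w') ((-s) • w') = s ^ 2 * K w' w' := by
          rw [Ksmul, Ksmul2]
          ring
        rw [← h1, e5, h2]
      have e7 : (1 - s) ^ 2 = s ^ 2 := by
        have h1 : b φ ((1 - s) • w) ((1 - s) • w) = (1 - s) ^ 2 := by
          simp only [map_smul, smul_apply, smul_eq_mul, hw.one]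
          ring
        have h2 : b φ ((-s) • w') ((-s) • w') = s ^ 2 := by
          simp only [map_smul, smul_apply, smul_eq_mul, hw'.one]
          ring
        rw [← h1, e5, h2]
      rw [e7] at e6
      have e8 : K w w = K w' w' := mul_left_cancel₀ (pow_pos hs0 2).ne' e6
      linarith
  set r : ℝ := (Real.sqrt (b φ x x))⁻¹ with hr
  have hr2 : r * r * b φ x x = 1 := by
    rw [hr]
    have h1 : Real.sqrt (b φ x x) * Real.sqrt (b φ x x) = b φ x x := Real.mul_self_sqrt hN.le
    have h2 : Real.sqrt (b φ x x) ≠ 0 := (Real.sqrt_pos.mpr hN).ne'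
    rw [← mul_inv, h1]
    exact inv_mul_cancel₀ hN.ne'
  refine ⟨r • x, ⟨?_, ?_⟩, ?_⟩
  · simp only [map_smul, smul_apply, smul_eq_mul]
    rw [← mul_assoc]
    exact hr2
  · intro v
    simp only [map_smul, smul_apply, smul_eq_mul]
    rw [hax v]
    ring
  · change K (r • x) (r • x) = t
    rw [Ksmul, Ksmul2, hKxs]
    calc r * (r * (t * b φ x x)) = t * (r * r * b φ x x) := by ring
      _ = t := by rw [hr2, mul_one]

end Pool.Agent.H551.IX
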